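import Pool.Agent.H624.WS.Fin
import Pool.Agent.H253.WS.L
import Pool.Agent.H935.WS.DENS
import Pool.Agent.H282.WS.CONV
import Pool.Agent.H790.WS.MA
import Pool.Agent.H790.WS.HREG
import Pool.Agent.H928.WS.SPL
import Pool.Agent.H190.WS.VAR
import Pool.Agent.H338.WS.LW
import Pool.Agent.H195.WS.ALG
import Pool.Agent.H127.WS.SEL
import Pool.Graph.R_seed8.Results.MP_33144e_an.UnderCH
import Pool.Graph.R_seed8.Y40.MA.Main
import Pool.Graph.R_pool_sql_team_seeded_620a6dc7.Helper9CH.Two

/-!
# MP_33144e_an : the question is independent of ZFC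

Weak* sequential compactness of the dual balls of Lebesgue-Bochner spaces.  Under the continuum
hypothesis there is a counterexample (for every `1 ≤ p ≤ ∞`); if `ℵ₁ < 𝔥 = 𝔰`, in particular under
Martin's axiom and the negation of the continuum hypothesis, the dual ball of `L^p(μ, X)` is weak*
sequentially compact for all probability spaces, all Banach spaces `X` with weak* sequentially
compact dual ball and all `1 ≤ p < ∞`.
-/

open MeasureTheory Set Filter Topology
open scoped ENNReal

noncomputable section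

namespace Pool.Agent.Results.MP_33144e_an.Independence

/-- Every sequence in the closed unit ball of the dual has a weak* convergent subsequence. -/
def DualBallSeqCompact (Y : Type) [NormedAddCommGroup Y] [NormedSpace ℝ Y] : Prop :=
  ∀ φ : ℕ → (Y →L[ℝ] ℝ), (∀ n, ‖φ n‖ ≤ 1) →
    ∃ ψ : Y →L[ℝ] ℝ, ‖ψ‖ ≤ 1 ∧ ∃ k : ℕ → ℕ, StrictMono k ∧
      ∀ x : Y, Tendsto (fun n => φ (k n) x) atTop (𝓝 (ψ x))

/-- A positive answer to the question. -/
def PositiveAnswer : Prop :=
  ∀ (Ω : Type) [MeasurableSpace Ω] (μ : Measure Ω) [IsProbabilityMeasure μ]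
    (X : Type) [NormedAddCommGroup X] [NormedSpace ℝ X] [CompleteSpace X] (p : ℝ≥0∞)
    [Fact (1 ≤ p)], p ≠ ∞ → DualBallSeqCompact X → DualBallSeqCompact (Lp X p μ)

/-- A family of subsets of `ℕ` is splitting if every infinite `M ⊆ ℕ` is split by some member `S`:
`M ∩ S` and `M \ S` are infinite. -/
def IsSplitting (𝒮 : Set (Set ℕ)) : Prop :=
  ∀ M : Set ℕ, M.Infinite → ∃ S ∈ 𝒮, (M ∩ S).Infinite ∧ (M \ S).Infinite

/-- The splitting number `𝔰`: the least cardinality of a splitting family. -/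
def splittingNumber : Cardinal.{0} :=
  sInf {κ | ∃ 𝒮 : Set (Set ℕ), Cardinal.mk 𝒮 = κ ∧ IsSplitting 𝒮}

/-- A family of infinite subsets of `ℕ` is open dense if it contains all infinite sets almost
contained in a member and every infinite set contains a member. -/
def OpenDense (D : Set (Set ℕ)) : Prop :=
  (∀ M ∈ D, M.Infinite) ∧
  (∀ M ∈ D, ∀ N : Set ℕ, N.Infinite → (N \ M).Finite → N ∈ D) ∧
  ∀ M : Set ℕ, M.Infinite → ∃ N ∈ D, N ⊆ M

/-- The distributivity number `𝔥`: the least number of open dense families with empty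
intersection. -/
def distributivityNumber : Cardinal.{0} :=
  sInf {κ | ∃ 𝒟 : Set (Set (Set ℕ)), Cardinal.mk 𝒟 = κ ∧ (∀ D ∈ 𝒟, OpenDense D) ∧ ⋂₀ 𝒟 = ∅}

/-- Martin's axiom: every ccc poset has, for every family of fewer than continuum many dense sets,
a filter meeting all of them. -/
def MartinAxiom : Prop := ∀ (P : Type) [PartialOrder P] [Nonempty P],
    (∀ S : Set P, (∀ p ∈ S, ∀ q ∈ S, p ≠ q → ¬ ∃ r, r ≤ p ∧ r ≤ q) → S.Countable) →
    ∀ 𝓓 : Set (Set P), Cardinal.mk 𝓓 < Cardinal.continuum → (∀ D ∈ 𝓓, ∀ p, ∃ q ∈ D, q ≤ p) →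
    ∃ G : Set P, G.Nonempty ∧ (∀ p ∈ G, ∀ q, p ≤ q → q ∈ G) ∧
      (∀ p ∈ G, ∀ q ∈ G, ∃ r ∈ G, r ≤ p ∧ r ≤ q) ∧ ∀ D ∈ 𝓓, (D ∩ G).Nonempty

/-- The continuum hypothesis. -/
def ContinuumHypothesis : Prop := Cardinal.continuum.{0} = Cardinal.aleph 1

/-- **The question is independent of ZFC.**

(1) Some forcing notion forces, below every condition, that `ω₁` is preserved and that the
continuum hypothesis holds. (2) The continuum hypothesis implies a negative answer, with one space
`L^p(μ, X)` for all `p`. (3) Some forcing notion forces, below every condition, that `ω₁` is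
preserved, that Martin's axiom for `ℵ₁` dense sets holds and that the continuum is at most `ℵ₂`;
(4) the latter two sentences together imply Martin's axiom, the negation of the continuum
hypothesis and a positive answer. (5) Martin's axiom and the negation of the continuum hypothesis
imply a positive answer. (6) More generally `ℵ₁ < 𝔥 = 𝔰` implies a positive answer. -/
theorem result :
    (∃ (P : Type) (_ : Preorder P), Nonempty P ∧ ∀ p : P,
      p ∈ Pool.Agent.Helper292.ForceCH.OmegaOnePreserved P ∧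
      p ∈ Pool.Agent.Helper292.ForceCH.CHHolds P) ∧
    (ContinuumHypothesis →
      ∃ (Ω : Type) (_ : MeasurableSpace Ω) (μ : Measure Ω) (_ : IsProbabilityMeasure μ)
        (X : Type) (_ : NormedAddCommGroup X) (_ : NormedSpace ℝ X) (_ : CompleteSpace X),
        DualBallSeqCompact X ∧
        ∀ (p : ℝ≥0∞) [Fact (1 ≤ p)], ¬ DualBallSeqCompact (Lp X p μ)) ∧
    (∃ (P : Type) (_ : Preorder P), Nonempty P ∧ ∀ p : P,
      p ∈ Pool.Agent.W684.FM.OmegaOnePreserved P ∧
      p ∈ Pool.Agent.W684.FM.MartinHolds P Pool.Agent.W684.FM.Om1 ∧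
      p ∈ Pool.Agent.Helper669.Forcing.ContinuumLe P (Cardinal.aleph 2 : Cardinal.{0}).out) ∧
    (Pool.Agent.W684.FM.MartinFor Pool.Agent.W684.FM.Om1 →
      Cardinal.continuum.{0} ≤ Cardinal.aleph 2 →
        MartinAxiom ∧ ¬ ContinuumHypothesis ∧ PositiveAnswer) ∧
    (MartinAxiom → ¬ ContinuumHypothesis → PositiveAnswer) ∧
    (Cardinal.aleph 1 < distributivityNumber → distributivityNumber = splittingNumber →
      PositiveAnswer) := by
  have h1 : H624.WS.S_L := H253.WS.sL H195.WS.sALG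
  have h2 : H624.WS.S_DENS := H935.WS.sDENS
  have hF := H624.WS.sFIN H624.WS.sSPL H790.WS.sHREG (H338.WS.sLW h1) (H190.sVAR h2)
    H195.WS.sALG H282.WS.sCONV H127.WS.sSEL
  have h5 : MartinAxiom → ¬ ContinuumHypothesis → PositiveAnswer := by
    intro hMA hCH
    have h := H790.WS.sMA hMA (lt_of_le_of_ne Cardinal.aleph_one_le_continuum fun h => hCH h.symm)
    exact hF h.1 h.2
  refine ⟨Pool.Agent.Helper9CH.exists_ch, fun h => UnderCH.result.2 h,
    Pool.Agent.W910.FC.exists_forcing, fun hM hc => ?_, h5, fun ha hb => hF ha hb⟩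
  obtain ⟨m1, m2⟩ := Pool.Agent.Helper9CH.martin_of_for hM hc
  have hMA : MartinAxiom := by
    intro P _ _ hP 𝓓 h𝓓 hD
    obtain ⟨G, ⟨g1, g2, g3⟩, g4⟩ := m1 P (fun A hA => hP A hA) 𝓓 h𝓓 (fun D hDm => hD D hDm)
    exact ⟨G, g1, g2, g3, fun D hDm => by rw [inter_comm]; exact g4 D hDm⟩
  have hCH : ¬ ContinuumHypothesis := by
    intro h
    have h' : (Cardinal.aleph 1 : Cardinal.{0}) = Cardinal.aleph 2 := h.symm.trans m2
    have h3 := Cardinal.aleph.injective h'
    norm_num at h3
  exact ⟨hMA, hCH, h5 hMA hCH⟩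

end Pool.Agent.Results.MP_33144e_an.Independence
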